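import Pool.Agent.Helper19.Un.Stmts

set_option autoImplicit false

/-!
# Module GD : the action of `U(m+1,1)` on the Siegel domain is isometric
-/

namespace Pool.Agent.Helper19.Un

open MeasureTheory Topology
open scoped ComplexConjugate

variable {m : ℕ}

/-! ### Algebra -/

/-- `P_q (a, b, c) = (a - z c, b - c ζ)` for `q = (z, ζ)` -/
noncomputable def gd_P (q : Pt m) : V m →ₗ[ℂ] Pt m where
  toFun x := (x.1 - q.1 * x.2.2, x.2.1 - x.2.2 • q.2)
  map_add' x y := by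
    refine Prod.ext ?_ ?_
    · simp only [Prod.fst_add, Prod.snd_add]; ring
    · simp only [Prod.fst_add, Prod.snd_add, add_smul]; abel
  map_smul' c x := by
    refine Prod.ext ?_ ?_
    · simp only [Prod.smul_fst, Prod.smul_snd, smul_eq_mul, RingHom.id_apply]; ring
    · simp only [Prod.smul_fst, Prod.smul_snd, smul_eq_mul, RingHom.id_apply, smul_sub, mul_smul]

theorem gd_P_apply (q : Pt m) (x : V m) : gd_P q x = (x.1 - q.1 * x.2.2, x.2.1 - x.2.2 • q.2) := rfl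

theorem gd_P_vec (q : Pt m) : gd_P q (vec q) = 0 := by
  rw [gd_P_apply]
  refine Prod.ext ?_ ?_
  · simp [vec]
  · simp [vec]

/-- `w ↦ (w, 0)` -/
noncomputable def gd_i : Pt m →ₗ[ℂ] V m where
  toFun w := (w.1, w.2, 0)
  map_add' x y := by
    refine Prod.ext ?_ (Prod.ext ?_ ?_) <;> simp
  map_smul' c x := by
    refine Prod.ext ?_ (Prod.ext ?_ ?_) <;> simp

theorem gd_i_apply (w : Pt m) : gd_i w = ((w.1, w.2, 0) : V m) := rfl

/-- the complex derivative of the action -/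
noncomputable def gd_J (g : V m ≃ₗ[ℂ] V m) (p : Pt m) : Pt m →ₗ[ℂ] Pt m :=
  ((g (vec p)).2.2)⁻¹ • ((gd_P (act g p)).comp ((g : V m →ₗ[ℂ] V m).comp gd_i))

theorem gd_J_apply (g : V m ≃ₗ[ℂ] V m) (p w : Pt m) :
    gd_J g p w = ((g (vec p)).2.2)⁻¹ • gd_P (act g p) (g (gd_i w)) := rfl

theorem gd_JP {g : V m ≃ₗ[ℂ] V m} (hg : g ∈ UG m) {p : Pt m} (hp : p ∈ SD m) (x : V m) :
    gd_J g p (gd_P p x) = ((g (vec p)).2.2)⁻¹ • gd_P (act g p) (g x) := by
  have h1 : gd_i (gd_P p x) = x - x.2.2 • vec p := by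
    rw [gd_P_apply, gd_i_apply]
    refine Prod.ext ?_ (Prod.ext ?_ ?_)
    · simp only [vec, Prod.fst_sub, Prod.smul_fst, smul_eq_mul]; ring
    · simp only [vec, Prod.fst_sub, Prod.snd_sub, Prod.smul_snd, Prod.smul_fst]
    · simp [vec]
  rw [gd_J_apply, h1, map_sub, map_smul, vec_act hg hp, map_sub, map_smul, map_smul, gd_P_vec]
  simp only [smul_zero, sub_zero]

/-- the dual Hermitian form -/
noncomputable def gd_H (Φ Ψ : V m →ₗ[ℂ] ℂ) : ℂ :=
  Φ (1, 0, 0) * conj (Ψ (0, 0, 1)) + ∑ k : Fin m, Φ (0, ek k, 0) * conj (Ψ (0, ek k, 0))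
    + Φ (0, 0, 1) * conj (Ψ (1, 0, 0))

/-- the representing vector -/
noncomputable def gd_r (Φ : V m →ₗ[ℂ] ℂ) : V m :=
  (conj (Φ (0, 0, 1)), ∑ k : Fin m, conj (Φ (0, ek k, 0)) • ek k, conj (Φ (1, 0, 0)))

theorem gd_sum_ek_apply (f : Fin m → ℂ) (i : Fin m) : (∑ k : Fin m, f k • ek k : E m) i = f i := by
  simp [ek, Pi.single_apply]

theorem gd_sum_ek (x : E m) : ∑ k : Fin m, x k • ek k = x := by
  ext i
  exact gd_sum_ek_apply _ i

theorem gd_riesz (Φ : V m →ₗ[ℂ] ℂ) (x : V m) : Φ x = herm x (gd_r Φ) := by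
  have h1 : x = x.1 • ((1, 0, 0) : V m) + ∑ k : Fin m, x.2.1 k • ((0, ek k, 0) : V m)
      + x.2.2 • ((0, 0, 1) : V m) := by
    have h2 : ∑ k : Fin m, x.2.1 k • ((0, ek k, 0) : V m) = (0, x.2.1, 0) := by
      refine Prod.ext ?_ (Prod.ext ?_ ?_)
      · rw [Prod.fst_sum]; simp
      · rw [Prod.snd_sum, Prod.fst_sum]
        simp only [Prod.smul_snd, Prod.smul_fst]
        exact gd_sum_ek x.2.1
      · rw [Prod.snd_sum, Prod.snd_sum]; simp
    rw [h2]
    refine Prod.ext ?_ (Prod.ext ?_ ?_) <;> simp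
  have h3 : Φ x = x.1 * Φ (1, 0, 0) + ∑ k : Fin m, x.2.1 k * Φ (0, ek k, 0) + x.2.2 * Φ (0, 0, 1) := by
    conv_lhs => rw [h1]
    simp only [map_add, map_smul, map_sum, smul_eq_mul]
  rw [h3]
  unfold herm gd_r
  simp only [Complex.conj_conj]
  congr 2
  rw [PiLp.inner_apply]
  refine Finset.sum_congr rfl fun k _ => ?_
  rw [gd_sum_ek_apply]
  simp

theorem gd_H_eq (Φ Ψ : V m →ₗ[ℂ] ℂ) : gd_H Φ Ψ = herm (gd_r Ψ) (gd_r Φ) := by
  unfold herm
  rw [PiLp.inner_apply]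
  unfold gd_H gd_r
  simp only [Complex.conj_conj, gd_sum_ek_apply]
  simp only [RCLike.inner_apply, Complex.conj_conj]
  have : ∀ k : Fin m, conj (Ψ (0, ek k, 0)) * Φ (0, ek k, 0) = Φ (0, ek k, 0) * conj (Ψ (0, ek k, 0)) :=
    fun k => mul_comm _ _
  simp only [this]
  ring

theorem gd_herm_ext (a b : V m) (h : ∀ x : V m, herm x a = herm x b) : a = b := by
  have h1 := h (1, 0, 0)
  have h2 := h (0, 0, 1)
  refine Prod.ext ?_ (Prod.ext ?_ ?_)
  · have : conj a.1 = conj b.1 := by simpa [herm] using h2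
    exact (starRingEnd ℂ).injective this
  · ext k
    have h3 := h (0, ek k, 0)
    have : inner ℂ a.2.1 (ek k) = inner ℂ b.2.1 (ek k) := by simpa [herm] using h3
    have h4 : conj (a.2.1 k) = conj (b.2.1 k) := by simpa [ek, EuclideanSpace.inner_single_right] using this
    exact (starRingEnd ℂ).injective h4
  · have : conj a.2.2 = conj b.2.2 := by simpa [herm] using h1
    exact (starRingEnd ℂ).injective this

theorem gd_H_inv {g : V m ≃ₗ[ℂ] V m} (hg : g ∈ UG m) (Φ Ψ : V m →ₗ[ℂ] ℂ) :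
    gd_H (Φ.comp (g : V m →ₗ[ℂ] V m)) (Ψ.comp (g : V m →ₗ[ℂ] V m)) = gd_H Φ Ψ := by
  have key : ∀ x, g (g⁻¹ x) = x := fun x => g.apply_symm_apply x
  have h1 : ∀ Φ : V m →ₗ[ℂ] ℂ, gd_r (Φ.comp (g : V m →ₗ[ℂ] V m)) = g⁻¹ (gd_r Φ) := by
    intro Φ
    refine gd_herm_ext _ _ fun x => ?_
    rw [← gd_riesz, ← hg x (g⁻¹ (gd_r Φ)), key, ← gd_riesz]
    rfl
  rw [gd_H_eq, gd_H_eq, h1, h1]
  exact (UG m).inv_mem hg _ _

/-- the Hermitian part of the inverse metric -/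
noncomputable def gd_S (p : Pt m) (a b : Pt m →ₗ[ℂ] ℂ) : ℂ :=
  (hgt p : ℂ) ^ 2 * (a (1, 0) * conj (b (1, 0)))
    + (hgt p : ℂ) * ∑ k : Fin m, a (-conj (p.2 k), ek k) * conj (b (-conj (p.2 k), ek k))

theorem gd_S_eq (p : Pt m) (a b : Pt m →ₗ[ℂ] ℂ) :
    gd_S p a b = (hgt p : ℂ) * gd_H (a.comp (gd_P p)) (b.comp (gd_P p)) := by
  have e1 : gd_P p ((1, 0, 0) : V m) = (1, 0) := by
    rw [gd_P_apply]; simp
  have e2 : ∀ k, gd_P p ((0, ek k, 0) : V m) = (0, ek k) := by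
    intro k; rw [gd_P_apply]; simp
  have e3 : gd_P p ((0, 0, 1) : V m) = -(p.1 • ((1, 0) : Pt m) + ∑ k : Fin m, p.2 k • ((0, ek k) : Pt m)) := by
    rw [gd_P_apply]
    have : ∑ k : Fin m, p.2 k • ((0, ek k) : Pt m) = (0, p.2) := by
      refine Prod.ext ?_ ?_
      · rw [Prod.fst_sum]; simp
      · rw [Prod.snd_sum]
        simp only [Prod.smul_snd]
        exact gd_sum_ek p.2
    rw [this]
    refine Prod.ext ?_ ?_ <;> simp
  have e4 : ∀ k, ((-conj (p.2 k), ek k) : Pt m) = (0, ek k) - conj (p.2 k) • ((1, 0) : Pt m) := by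
    intro k
    refine Prod.ext ?_ ?_ <;> simp
  have e5 : (hgt p : ℂ) = -(p.1 + conj p.1) - ∑ k : Fin m, p.2 k * conj (p.2 k) := by
    have h1 : ((‖p.2‖ ^ 2 : ℝ) : ℂ) = ∑ k : Fin m, p.2 k * conj (p.2 k) := by
      rw [EuclideanSpace.norm_sq_eq]
      push_cast
      refine Finset.sum_congr rfl fun k _ => ?_
      rw [Complex.mul_conj, Complex.normSq_eq_norm_sq]; push_cast; rfl
    rw [← h1, Complex.add_conj]
    unfold hgt
    push_cast
    ring
  unfold gd_S gd_H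
  simp only [LinearMap.comp_apply, e1, e2, e3, e4, map_sub, map_neg, map_add, map_smul, map_sum, smul_eq_mul,
    map_mul, Complex.conj_conj]
  have e6 : ∑ k : Fin m, (a (0, ek k) - conj (p.2 k) * a (1, 0)) * (conj (b (0, ek k)) - p.2 k * conj (b (1, 0)))
      = ∑ k : Fin m, a (0, ek k) * conj (b (0, ek k)) - (∑ k : Fin m, p.2 k * a (0, ek k)) * conj (b (1, 0))
        - a (1, 0) * (∑ k : Fin m, conj (p.2 k) * conj (b (0, ek k)))
        + (∑ k : Fin m, p.2 k * conj (p.2 k)) * (a (1, 0) * conj (b (1, 0))) := by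
    rw [Finset.sum_mul, Finset.mul_sum, Finset.sum_mul, ← Finset.sum_sub_distrib, ← Finset.sum_sub_distrib,
      ← Finset.sum_add_distrib]
    refine Finset.sum_congr rfl fun k _ => ?_
    ring
  rw [e6]
  linear_combination (hgt p : ℂ) * (a (1, 0) * conj (b (1, 0))) * e5

theorem gd_S_inv {g : V m ≃ₗ[ℂ] V m} (hg : g ∈ UG m) {p : Pt m} (hp : p ∈ SD m) (a b : Pt m →ₗ[ℂ] ℂ) :
    gd_S p (a.comp (gd_J g p)) (b.comp (gd_J g p)) = gd_S (act g p) a b := by
  have hx := x3_ne hg hp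
  rw [gd_S_eq, gd_S_eq, ← gd_H_inv hg (a.comp (gd_P (act g p))), hgt_act hg hp]
  have h1 : ∀ (a : Pt m →ₗ[ℂ] ℂ) (x : V m), ((a.comp (gd_J g p)).comp (gd_P p)) x
      = ((g (vec p)).2.2)⁻¹ * (((a.comp (gd_P (act g p))).comp (g : V m →ₗ[ℂ] V m)) x) := by
    intro a x
    simp only [LinearMap.comp_apply]
    rw [gd_JP hg hp, map_smul]
    rfl
  unfold gd_H
  simp only [h1, map_mul, map_inv₀]
  have h2 : ((‖(g (vec p)).2.2‖ : ℂ)) ^ 2 = (g (vec p)).2.2 * conj (g (vec p)).2.2 := by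
    rw [Complex.mul_conj, Complex.normSq_eq_norm_sq]; push_cast; rfl
  rw [Complex.ofReal_div, Complex.ofReal_pow, h2]
  have h3 : ∀ k : Fin m, (g (vec p)).2.2⁻¹ * (((a.comp (gd_P (act g p))).comp (g : V m →ₗ[ℂ] V m)) (0, ek k, 0))
      * ((conj (g (vec p)).2.2)⁻¹ * conj (((b.comp (gd_P (act g p))).comp (g : V m →ₗ[ℂ] V m)) (0, ek k, 0)))
      = ((g (vec p)).2.2⁻¹ * (conj (g (vec p)).2.2)⁻¹) * ((((a.comp (gd_P (act g p))).comp (g : V m →ₗ[ℂ] V m)) (0, ek k, 0))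
      * conj (((b.comp (gd_P (act g p))).comp (g : V m →ₗ[ℂ] V m)) (0, ek k, 0))) := fun k => by ring
  simp only [h3]
  rw [← Finset.mul_sum, div_eq_mul_inv, mul_inv]
  ring

/-! ### Derivative of the action -/

theorem gd_hd_pnt (v : V m) (hv : v.2.2 ≠ 0) :
    HasFDerivAt (pnt : V m → Pt m) (LinearMap.toContinuousLinearMap ((v.2.2)⁻¹ • gd_P (pnt v))) v := by
  have h3 : HasFDerivAt (fun x : V m => x.2.2)
      ((ContinuousLinearMap.snd ℂ (E m) ℂ).comp (ContinuousLinearMap.snd ℂ ℂ (E m × ℂ))) v :=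
    ((ContinuousLinearMap.snd ℂ (E m) ℂ).comp (ContinuousLinearMap.snd ℂ ℂ (E m × ℂ))).hasFDerivAt
  have h2 : HasFDerivAt (fun x : V m => x.2.1)
      ((ContinuousLinearMap.fst ℂ (E m) ℂ).comp (ContinuousLinearMap.snd ℂ ℂ (E m × ℂ))) v :=
    ((ContinuousLinearMap.fst ℂ (E m) ℂ).comp (ContinuousLinearMap.snd ℂ ℂ (E m × ℂ))).hasFDerivAt
  have h1 : HasFDerivAt (fun x : V m => x.1) (ContinuousLinearMap.fst ℂ ℂ (E m × ℂ)) v :=
    (ContinuousLinearMap.fst ℂ ℂ (E m × ℂ)).hasFDerivAt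
  have hI : HasFDerivAt (fun x : V m => (x.2.2)⁻¹) (-((v.2.2) ^ 2)⁻¹ •
      ((ContinuousLinearMap.snd ℂ (E m) ℂ).comp (ContinuousLinearMap.snd ℂ ℂ (E m × ℂ)))) v :=
    (hasDerivAt_inv hv).comp_hasFDerivAt v h3
  have h4 := (h1.mul hI).prodMk (hI.smul h2)
  have e : (fun x : V m => (x.1 * (x.2.2)⁻¹, (x.2.2)⁻¹ • x.2.1)) = pnt := by
    funext x
    simp [pnt, div_eq_mul_inv]
  have h5 : HasFDerivAt (fun x : V m => (x.1 * (x.2.2)⁻¹, (x.2.2)⁻¹ • x.2.1)) _ v := h4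
  rw [e] at h5
  refine h5.congr_fderiv ?_
  refine ContinuousLinearMap.ext fun w => Prod.ext ?_ ?_
  · simp [gd_P_apply, pnt]
    field_simp
    ring
  · simp [gd_P_apply, pnt]
    rw [smul_sub, smul_smul, smul_smul, sub_eq_add_neg]
    congr 3
    rw [pow_two, mul_inv]
    ring

/-- `w ↦ (w, 0)` plus `(0, 0, 1)` -/
theorem gd_vec_eq (p : Pt m) : vec p = gd_i p + (0, 0, 1) := by
  rw [gd_i_apply]
  refine Prod.ext ?_ (Prod.ext ?_ ?_) <;> simp [vec]

theorem gd_hd_act (g : V m ≃ₗ[ℂ] V m) (p : Pt m) (hx : (g (vec p)).2.2 ≠ 0) :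
    HasFDerivAt (act g) (LinearMap.toContinuousLinearMap (gd_J g p)) p := by
  have h1 : HasFDerivAt (fun q : Pt m => g (vec q))
      (LinearMap.toContinuousLinearMap ((g : V m →ₗ[ℂ] V m).comp gd_i)) p := by
    have h2 : (fun q : Pt m => g (vec q)) = fun q =>
        (LinearMap.toContinuousLinearMap ((g : V m →ₗ[ℂ] V m).comp gd_i)) q + g (0, 0, 1) := by
      funext q
      rw [gd_vec_eq, map_add]
      rfl
    rw [h2]
    exact (ContinuousLinearMap.hasFDerivAt _).add_const _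
  have h2 := (gd_hd_pnt (g (vec p)) hx).comp p h1
  exact h2

theorem gd_fd {g : V m ≃ₗ[ℂ] V m} {p : Pt m} (hx : (g (vec p)).2.2 ≠ 0)
    {f : Pt m → ℂ} (hf : DifferentiableAt ℝ f (act g p)) :
    HasFDerivAt (fun q => f (act g q))
      ((fderiv ℝ f (act g p)).comp ((LinearMap.toContinuousLinearMap (gd_J g p)).restrictScalars ℝ)) p :=
  hf.hasFDerivAt.comp p ((gd_hd_act g p hx).restrictScalars ℝ)

/-! ### Invariance of the metric -/

/-- linear part of a real linear functional -/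
noncomputable def gd_a (l : Pt m →L[ℝ] ℂ) : Pt m →ₗ[ℂ] ℂ where
  toFun v := (l v - Complex.I * l (Complex.I • v)) / 2
  map_add' x y := by
    simp only [smul_add, map_add]; ring
  map_smul' c x := by
    have h1 : c • x = c.re • x + c.im • (Complex.I • x) := by
      have : c • x = ((c.re : ℂ) + (c.im : ℂ) * Complex.I) • x := by rw [Complex.re_add_im]
      rw [this, add_smul, mul_smul]; rfl
    have h2 : Complex.I • c • x = c.re • (Complex.I • x) - c.im • x := by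
      rw [h1, smul_add, smul_comm Complex.I c.re, smul_comm Complex.I c.im, smul_smul Complex.I Complex.I,
        Complex.I_mul_I, neg_one_smul, smul_neg, ← sub_eq_add_neg]
    rw [h2, h1]
    simp only [map_add, map_sub, map_smul, RingHom.id_apply, smul_eq_mul, Complex.real_smul]
    have e : c = (c.re : ℂ) + (c.im : ℂ) * Complex.I := (Complex.re_add_im c).symm
    have hI := Complex.I_sq
    linear_combination ((l x - Complex.I * l (Complex.I • x)) / 2) * (-e)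
      + ((c.im : ℂ) * l (Complex.I • x) / 2) * hI

/-- conjugate of the antilinear part of a real linear functional -/
noncomputable def gd_b (l : Pt m →L[ℝ] ℂ) : Pt m →ₗ[ℂ] ℂ :=
  gd_a ((Complex.conjCLE : ℂ →L[ℝ] ℂ).comp l)

theorem gd_dec (l : Pt m →L[ℝ] ℂ) (v : Pt m) : l v = gd_a l v + conj (gd_b l v) := by
  have h1 : gd_a l v = (l v - Complex.I * l (Complex.I • v)) / 2 := rfl
  have h2 : gd_b l v = (conj (l v) - Complex.I * conj (l (Complex.I • v))) / 2 := rfl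
  rw [h1, h2]
  simp only [map_div₀, map_sub, map_mul, Complex.conj_conj, Complex.conj_I, map_ofNat]
  ring

theorem gd_gdot_eq {f h : Pt m → ℂ} {p : Pt m} {a b a' b' : Pt m →ₗ[ℂ] ℂ}
    (hf : ∀ v : Pt m, fderiv ℝ f p v = a v + conj (b v))
    (hh : ∀ v : Pt m, fderiv ℝ h p v = a' v + conj (b' v)) :
    gdot f h p = 2 * (gd_S p a b' + gd_S p a' b) := by
  have e1 : ((Complex.I, 0) : Pt m) = Complex.I • ((1, 0) : Pt m) := by
    refine Prod.ext ?_ ?_ <;> simp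
  have e2 : ∀ k : Fin m, ((-(Complex.I * conj (p.2 k)), Complex.I • ek k) : Pt m)
      = Complex.I • ((-conj (p.2 k), ek k) : Pt m) := by
    intro k
    refine Prod.ext ?_ ?_ <;> simp
  have hI := Complex.I_sq
  unfold gdot pd XX YY gd_S
  simp only [hf, hh, e1, e2, map_smul, smul_eq_mul, map_mul, Complex.conj_I]
  have e3 : ∀ k : Fin m, (a (-conj (p.2 k), ek k) + conj (b (-conj (p.2 k), ek k))) *
        (a' (-conj (p.2 k), ek k) + conj (b' (-conj (p.2 k), ek k))) +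
        (Complex.I * a (-conj (p.2 k), ek k) + -Complex.I * conj (b (-conj (p.2 k), ek k))) *
        (Complex.I * a' (-conj (p.2 k), ek k) + -Complex.I * conj (b' (-conj (p.2 k), ek k)))
      = 2 * (a (-conj (p.2 k), ek k) * conj (b' (-conj (p.2 k), ek k)))
        + 2 * (a' (-conj (p.2 k), ek k) * conj (b (-conj (p.2 k), ek k))) := by
    intro k
    linear_combination (a (-conj (p.2 k), ek k) * a' (-conj (p.2 k), ek k)
      - a (-conj (p.2 k), ek k) * conj (b' (-conj (p.2 k), ek k))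
      - conj (b (-conj (p.2 k), ek k)) * a' (-conj (p.2 k), ek k)
      + conj (b (-conj (p.2 k), ek k)) * conj (b' (-conj (p.2 k), ek k))) * hI
  simp only [e3]
  rw [Finset.sum_add_distrib, ← Finset.mul_sum, ← Finset.mul_sum]
  linear_combination ((hgt p : ℂ) ^ 2 * (a (1, 0) * a' (1, 0) - a (1, 0) * conj (b' (1, 0))
      - conj (b (1, 0)) * a' (1, 0) + conj (b (1, 0)) * conj (b' (1, 0)))) * hI

theorem gd_main {g : V m ≃ₗ[ℂ] V m} (hg : g ∈ UG m) {p : Pt m} (hp : p ∈ SD m)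
    {f h : Pt m → ℂ} (hf : DifferentiableAt ℝ f (act g p)) (hh : DifferentiableAt ℝ h (act g p)) :
    gdot (fun q => f (act g q)) (fun q => h (act g q)) p = gdot f h (act g p) := by
  have hx := x3_ne hg hp
  have key : ∀ F : Pt m → ℂ, DifferentiableAt ℝ F (act g p) → ∀ v : Pt m,
      fderiv ℝ (fun q => F (act g q)) p v = ((gd_a (fderiv ℝ F (act g p))).comp (gd_J g p)) v
        + conj (((gd_b (fderiv ℝ F (act g p))).comp (gd_J g p)) v) := by
    intro F hF v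
    rw [(gd_fd hx hF).fderiv]
    exact gd_dec (fderiv ℝ F (act g p)) (gd_J g p v)
  rw [gd_gdot_eq (key f hf) (key h hh), gd_gdot_eq (gd_dec (fderiv ℝ f (act g p))) (gd_dec (fderiv ℝ h (act g p))),
    gd_S_inv hg hp, gd_S_inv hg hp]

theorem gd_gsq (F : Pt m → ℂ) (q : Pt m) (hF : DifferentiableAt ℝ F q) :
    (gsq F q : ℂ) = gdot F (fun r => conj (F r)) q := by
  have h1 : ∀ v : Pt m, fderiv ℝ (fun r => conj (F r)) q v = conj (fderiv ℝ F q v) := by
    intro v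
    have h2 : HasFDerivAt (fun r => conj (F r))
        ((Complex.conjCLE : ℂ →L[ℝ] ℂ).comp (fderiv ℝ F q)) q :=
      (Complex.conjCLE : ℂ →L[ℝ] ℂ).hasFDerivAt.comp q hF.hasFDerivAt
    rw [h2.fderiv]
    rfl
  have h3 : ∀ z : ℂ, z * conj z = ((‖z‖ ^ 2 : ℝ) : ℂ) := by
    intro z
    rw [Complex.mul_conj, Complex.normSq_eq_norm_sq]
  unfold gsq gdot pd XX YY
  simp only [h1, h3]
  push_cast
  ring

theorem st_GD : ST_GD := fun _ _ hg _ hp _ _ hf hh => gd_main hg hp hf hh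

theorem st_GS : ST_GS := by
  intro m g hg p hp f hf
  have hd : DifferentiableAt ℝ (fun q => f (act g q)) p := (gd_fd (x3_ne hg hp) hf).differentiableAt
  have hc : DifferentiableAt ℝ (fun r => conj (f r)) (act g p) :=
    ((Complex.conjCLE : ℂ →L[ℝ] ℂ).hasFDerivAt.comp (act g p) hf.hasFDerivAt).differentiableAt
  have h4 : ((gsq (fun q => f (act g q)) p : ℝ) : ℂ) = ((gsq f (act g p) : ℝ) : ℂ) := by
    rw [gd_gsq _ p hd, gd_gsq f (act g p) hf]
    exact gd_main (h := fun r => conj (f r)) hg hp hf hc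
  exact_mod_cast h4

end Pool.Agent.Helper19.Un
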